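import Pool.Agent.Y851.DK.Stm2

/-!
# Project DK: the sieve bound for the number of solutions of `a p - b q = m`
-/

set_option autoImplicit false

namespace Pool.Agent.Y433.DK

open Finset Filter Pool.Agent.Y851.DK

theorem sg_nonneg (m : ℕ) : 0 ≤ sg m := by
  unfold sg
  exact sum_nonneg fun p _ => by positivity

theorem sg_le_of_dvd {d m : ℕ} (h : d ∣ m) (hm : m ≠ 0) : sg d ≤ sg m := by
  unfold sg
  exact sum_le_sum_of_subset_of_nonneg (Nat.primeFactors_mono h hm) fun p _ _ => by positivity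

theorem sg_zero : sg 0 = 0 := by
  simp [sg]

/-- the combinatorial part -/
theorem comb (X Y : ℝ) (a b : ℕ) (ha : 1 ≤ a) (hb : 1 ≤ b) (m : ℤ) (hm : m ≠ 0)
    (hY : X * Nat.gcd a b / b ≤ Y) : RR X a b m = 0 ∨ ∃ F : Finset (ℤ × ℤ), F.card = 2 ∧
      (∀ f ∈ F, f.1 ≠ 0) ∧ (∀ f ∈ F, ∀ g ∈ F, f ≠ g → f.1 * g.2 - g.1 * f.2 ≠ 0) ∧
      (RR X a b m : ℝ) ≤ 1 + (((Icc 1 ⌊Y⌋₊).filter
        (fun n : ℕ => ∀ f ∈ F, (f.1 * (n : ℤ) + f.2).toNat.Prime)).card : ℝ) ∧
      ∑ f ∈ F, sg f.1.natAbs ≤ sg a + sg b ∧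
      ∑ f ∈ F, ∑ g ∈ F, sg (f.1 * g.2 - g.1 * f.2).natAbs ≤ 2 * sg m.natAbs := by
  classical
  set S : Finset (ℕ × ℕ) := (Icc 1 ⌊X⌋₊ ×ˢ Icc 1 ⌊X⌋₊).filter (fun x : ℕ × ℕ => x.1.Prime ∧
    x.2.Prime ∧ (a : ℤ) * (x.1 : ℤ) - (b : ℤ) * (x.2 : ℤ) = m) with hS
  have hRR : RR X a b m = S.card := rfl
  rcases S.eq_empty_or_nonempty with hE | hne
  · left
    rw [hRR, hE, card_empty]
  right
  obtain ⟨s1, hs1, hmin⟩ := exists_min_image S Prod.fst hne
  obtain ⟨p1, q1⟩ := s1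
  have hmem : ∀ x ∈ S, (1 ≤ x.1 ∧ x.1 ≤ ⌊X⌋₊) ∧ x.1.Prime ∧ x.2.Prime ∧
      (a : ℤ) * (x.1 : ℤ) - (b : ℤ) * (x.2 : ℤ) = m := by
    intro x hx
    rw [hS, mem_filter, mem_product, mem_Icc, mem_Icc] at hx
    exact ⟨hx.1.1, hx.2.1, hx.2.2.1, hx.2.2.2⟩
  obtain ⟨⟨hp1, hp1X⟩, hp1p, hq1p, heq1⟩ := hmem _ hs1
  dsimp only at hp1 hp1X hp1p hq1p heq1
  set g := Nat.gcd a b with hg
  have hg0 : 0 < g := Nat.gcd_pos_of_pos_left _ ha
  obtain ⟨a', ha'⟩ : g ∣ a := Nat.gcd_dvd_left a b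
  obtain ⟨b', hb'⟩ : g ∣ b := Nat.gcd_dvd_right a b
  have ha'0 : 0 < a' := by
    rcases Nat.eq_zero_or_pos a' with h | h
    · rw [h, mul_zero] at ha'; omega
    · exact h
  have hb'0 : 0 < b' := by
    rcases Nat.eq_zero_or_pos b' with h | h
    · rw [h, mul_zero] at hb'; omega
    · exact h
  have hcop : Nat.Coprime b' a' := by
    have h1 : a / g = a' := by rw [ha']; exact Nat.mul_div_cancel_left _ hg0
    have h2 : b / g = b' := by rw [hb']; exact Nat.mul_div_cancel_left _ hg0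
    have h3 := Nat.coprime_div_gcd_div_gcd (m := a) (n := b) hg0
    rw [← hg, h1, h2] at h3
    exact h3.symm
  have hgZ : (g : ℤ) ≠ 0 := by exact_mod_cast hg0.ne'
  have hmg : m = (g : ℤ) * ((a' : ℤ) * p1 - (b' : ℤ) * q1) := by
    rw [← heq1, ha', hb']
    push_cast
    ring
  set m' : ℤ := (a' : ℤ) * p1 - (b' : ℤ) * q1 with hm'
  have hm'0 : m' ≠ 0 := by
    intro h
    rw [h, mul_zero] at hmg
    exact hm hmg
  have hsgm : sg m'.natAbs ≤ sg m.natAbs := by
    refine sg_le_of_dvd ?_ (Int.natAbs_ne_zero.2 hm)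
    rw [Int.natAbs_dvd_natAbs]
    exact ⟨g, by rw [hmg]; ring⟩
  have hfne : ((b' : ℤ), (p1 : ℤ)) ≠ ((a' : ℤ), (q1 : ℤ)) := by
    intro h
    rw [Prod.mk.injEq] at h
    apply hm'0
    rw [hm', ← h.1, ← h.2]
    ring
  refine ⟨{((b' : ℤ), (p1 : ℤ)), ((a' : ℤ), (q1 : ℤ))}, card_pair hfne, ?_, ?_, ?_, ?_, ?_⟩
  · intro f hf
    rw [mem_insert, mem_singleton] at hf
    rcases hf with rfl | rfl
    · dsimp only; exact_mod_cast hb'0.ne'
    · dsimp only; exact_mod_cast ha'0.ne'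
  · intro f hf f' hf' hff
    rw [mem_insert, mem_singleton] at hf hf'
    rcases hf with rfl | rfl <;> rcases hf' with rfl | rfl
    · exact absurd rfl hff
    · dsimp only
      intro h
      apply hm'0
      rw [hm']
      linarith
    · dsimp only
      intro h
      apply hm'0
      rw [hm']
      linarith
    · exact absurd rfl hff
  · -- the counting
    set B := (Icc 1 ⌊Y⌋₊).filter (fun n : ℕ =>
      ∀ f ∈ ({((b' : ℤ), (p1 : ℤ)), ((a' : ℤ), (q1 : ℤ))} : Finset (ℤ × ℤ)),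
        (f.1 * (n : ℤ) + f.2).toNat.Prime) with hB
    have hsub : S ⊆ (insert 0 B).image (fun n : ℕ => (p1 + b' * n, q1 + a' * n)) := by
      rintro ⟨p, q⟩ hx
      obtain ⟨⟨hp, hpX⟩, hpp, hqp, heq⟩ := hmem _ hx
      have hle : p1 ≤ p := hmin _ hx
      dsimp only at hp hpX hpp hqp heq
      have h1 : (a' : ℤ) * ((p : ℤ) - p1) = (b' : ℤ) * ((q : ℤ) - q1) := by
        apply mul_left_cancel₀ hgZ
        have h2 : (a : ℤ) * p - b * q = a * p1 - b * q1 := by rw [heq, heq1]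
        rw [ha', hb'] at h2
        push_cast at h2
        linarith
      have h2 : (b' : ℤ) ∣ (p : ℤ) - p1 := by
        have h3 : IsCoprime (b' : ℤ) (a' : ℤ) := Nat.isCoprime_iff_coprime.2 hcop
        exact h3.dvd_of_dvd_mul_left ⟨_, h1⟩
      obtain ⟨n, hn⟩ := h2
      have hb'Z : (0 : ℤ) < b' := by exact_mod_cast hb'0
      have hn0 : 0 ≤ n := by
        have h3 : 0 ≤ (b' : ℤ) * n := by
          rw [← hn]
          have : (p1 : ℤ) ≤ p := by exact_mod_cast hle
          linarith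
        by_contra hcon
        push Not at hcon
        nlinarith
      obtain ⟨k, rfl⟩ := Int.eq_ofNat_of_zero_le hn0
      have hq : (q : ℤ) = q1 + a' * k := by
        have h3 : (b' : ℤ) * ((q : ℤ) - q1) = (b' : ℤ) * (a' * k) := by
          rw [← h1, hn]
          ring
        have := mul_left_cancel₀ hb'Z.ne' h3
        linarith
      have hp' : (p : ℤ) = p1 + b' * k := by linarith
      have hpN : p = p1 + b' * k := by exact_mod_cast hp'
      have hqN : q = q1 + a' * k := by exact_mod_cast hq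
      rw [mem_image]
      refine ⟨k, ?_, by rw [hpN, hqN]⟩
      rw [mem_insert]
      rcases Nat.eq_zero_or_pos k with hk | hk
      · left; exact hk
      right
      rw [hB, mem_filter, mem_Icc]
      refine ⟨⟨hk, ?_⟩, ?_⟩
      · apply Nat.le_floor
        refine le_trans ?_ hY
        have hX0 : 0 ≤ X := by
          by_contra hcon
          push Not at hcon
          rw [Nat.floor_of_nonpos hcon.le] at hpX
          omega
        have hpX' : (p : ℝ) ≤ X := (Nat.cast_le.2 hpX).trans (Nat.floor_le hX0)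
        have hb0 : (0 : ℝ) < b := by exact_mod_cast (show 0 < b by omega)
        rw [le_div_iff₀ hb0]
        have h4 : (b : ℝ) = g * b' := by exact_mod_cast hb'
        have h5 : ((b' : ℝ) * k) ≤ X := by
          have h6 : ((p : ℕ) : ℝ) = p1 + b' * k := by exact_mod_cast hpN
          have h7 : (0 : ℝ) ≤ p1 := Nat.cast_nonneg _
          linarith
        rw [h4]
        have h6 : (0 : ℝ) ≤ g := Nat.cast_nonneg _
        nlinarith
      · intro f hf
        rw [mem_insert, mem_singleton] at hf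
        rcases hf with rfl | rfl
        · dsimp only
          have : ((b' : ℤ) * (k : ℤ) + (p1 : ℤ)) = (p : ℤ) := by linarith
          rw [this, Int.toNat_natCast]
          exact hpp
        · dsimp only
          have : ((a' : ℤ) * (k : ℤ) + (q1 : ℤ)) = (q : ℤ) := by linarith
          rw [this, Int.toNat_natCast]
          exact hqp
    have h1 : S.card ≤ 1 + B.card := by
      calc S.card ≤ _ := card_le_card hsub
        _ ≤ (insert 0 B).card := card_image_le
        _ ≤ B.card + 1 := card_insert_le _ _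
        _ = 1 + B.card := by ring
    rw [hRR]
    exact_mod_cast h1
  · rw [sum_pair hfne]
    simp only [Int.natAbs_natCast]
    have h1 : sg b' ≤ sg b := sg_le_of_dvd ⟨g, by rw [hb']; ring⟩ (by omega)
    have h2 : sg a' ≤ sg a := sg_le_of_dvd ⟨g, by rw [ha']; ring⟩ (by omega)
    linarith
  · rw [sum_pair hfne, sum_pair hfne, sum_pair hfne]
    dsimp only
    have e1 : ((b' : ℤ) * p1 - b' * p1).natAbs = 0 := by simp
    have e2 : ((a' : ℤ) * q1 - a' * q1).natAbs = 0 := by simp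
    have e3 : ((b' : ℤ) * q1 - a' * p1).natAbs = m'.natAbs := by
      rw [hm', ← Int.natAbs_neg]
      congr 1
      ring
    rw [e1, e2, e3, sg_zero]
    linarith

/-- **DK-SOL** -/
theorem t_SOL : P_SV → P_SOL := by
  intro hSV θ κ T G hθ0 hθ1 hκ
  obtain ⟨C1, hC1, hsv⟩ := hSV 2
  set D : ℝ := C1 * Real.exp (2 * C1 * |T|) * (4 * G / (κ * (1 - θ) ^ 2)) with hD
  have h1θ : 0 < 1 - θ := by linarith
  have hD0 : 0 ≤ D := by positivity
  refine ⟨2 * C1 + 1 + D, by linarith, ?_⟩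
  rcases Nat.eq_zero_or_pos G with hG | hG
  · filter_upwards with X a b ha hb _ _ hgcd
    have : 0 < Nat.gcd a b := Nat.gcd_pos_of_pos_left _ ha
    omega
  have hG' : (1 : ℝ) ≤ G := by exact_mod_cast hG
  have hGκ : 0 < (G : ℝ) / κ := by positivity
  have hYt : Tendsto (fun X : ℝ => (G : ℝ) / κ * X ^ (1 - θ)) atTop atTop :=
    (tendsto_rpow_atTop h1θ).const_mul_atTop hGκ
  have hlogt : ∀ᶠ X : ℝ in atTop, -Real.log ((G : ℝ) / κ) ≤ (1 - θ) / 2 * Real.log X :=
    (Real.tendsto_log_atTop.const_mul_atTop (by positivity)).eventually_ge_atTop _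
  have hsmall : ∀ᶠ X : ℝ in atTop, Real.log X ^ 2 ≤ X ^ (1 - θ) := by
    have h1 := isLittleO_log_rpow_rpow_atTop 2 h1θ
    have h2 := h1.bound (show (0 : ℝ) < 1 by norm_num)
    filter_upwards [h2, eventually_gt_atTop 1] with X hX hX1
    have h3 : 0 ≤ Real.log X := Real.log_nonneg hX1.le
    rw [Real.norm_of_nonneg (by positivity), Real.norm_of_nonneg (by positivity), one_mul] at hX
    have h4 : Real.log X ^ (2 : ℝ) = Real.log X ^ 2 := by
      rw [show (2 : ℝ) = ((2 : ℕ) : ℝ) by norm_num, Real.rpow_natCast]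
    rwa [h4] at hX
  filter_upwards [hYt.eventually hsv, hlogt, hsmall, eventually_gt_atTop 1] with X hsvX hlogX hsX hX1
  intro a b ha hb haX hbX hgcd hsa hsb m hm
  have hlog0 : 0 < Real.log X := Real.log_pos hX1
  have hX0 : 0 < X := by linarith
  set Y : ℝ := (G : ℝ) / κ * X ^ (1 - θ) with hYdef
  have hpow : 0 < X ^ (1 - θ) := Real.rpow_pos_of_pos hX0 _
  have hratio : 1 ≤ X ^ (1 - θ) / Real.log X ^ 2 := by
    rw [le_div_iff₀ (by positivity), one_mul]
    exact hsX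
  have hsgm := sg_nonneg m.natAbs
  have hRHS0 : 0 ≤ (2 * C1 + 1 + D) * Real.exp ((2 * C1 + 1 + D) * sg m.natAbs) *
      (X ^ (1 - θ) / Real.log X ^ 2) := by positivity
  have hYb : X * Nat.gcd a b / b ≤ Y := by
    have hb0 : (0 : ℝ) < b := by exact_mod_cast (show 0 < b by omega)
    have hXθ : 0 < X ^ θ := Real.rpow_pos_of_pos hX0 _
    rw [div_le_iff₀ hb0]
    have h1 : (Nat.gcd a b : ℝ) ≤ G := by exact_mod_cast hgcd
    have h2 : X = X ^ (1 - θ) * X ^ θ := by
      rw [← Real.rpow_add hX0]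
      simp
    calc X * (Nat.gcd a b : ℝ) ≤ X * G := mul_le_mul_of_nonneg_left h1 hX0.le
      _ = (G : ℝ) / κ * X ^ (1 - θ) * (κ * X ^ θ) := by
        conv_lhs => rw [h2]
        field_simp
      _ ≤ Y * b := mul_le_mul_of_nonneg_left hbX (by positivity)
  rcases comb X Y a b ha hb m hm hYb with h0 | ⟨F, hF2, hF1, hFd, hFc, hFs, hFm⟩
  · rw [h0]
    exact_mod_cast hRHS0
  have h1 := hsvX F hF2 hF1 hFd
  have hlogY : (1 - θ) / 2 * Real.log X ≤ Real.log Y := by
    rw [hYdef, Real.log_mul hGκ.ne' hpow.ne', Real.log_rpow hX0]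
    linarith
  have hYpos : 0 < Y := by positivity
  have h2 : Y / Real.log Y ^ 2 ≤ 4 * G / (κ * (1 - θ) ^ 2) * (X ^ (1 - θ) / Real.log X ^ 2) := by
    have h3 : ((1 - θ) / 2 * Real.log X) ^ 2 ≤ Real.log Y ^ 2 :=
      pow_le_pow_left₀ (by positivity) hlogY 2
    calc Y / Real.log Y ^ 2 ≤ Y / ((1 - θ) / 2 * Real.log X) ^ 2 :=
          div_le_div_of_nonneg_left hYpos.le (by positivity) h3
      _ = _ := by
          rw [hYdef]
          field_simp
          ring
  have hTabs : T ≤ |T| := le_abs_self T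
  have h4 : C1 * (∑ f ∈ F, sg f.1.natAbs + ∑ f ∈ F, ∑ g ∈ F, sg (f.1 * g.2 - g.1 * f.2).natAbs) ≤
      2 * C1 * |T| + 2 * C1 * sg m.natAbs := by
    have h5 : ∑ f ∈ F, sg f.1.natAbs + ∑ f ∈ F, ∑ g ∈ F, sg (f.1 * g.2 - g.1 * f.2).natAbs ≤
        2 * |T| + 2 * sg m.natAbs := by linarith
    have h6 : 0 ≤ C1 := by linarith
    nlinarith
  have h7 := h1.trans (mul_le_mul
    (mul_le_mul_of_nonneg_left (Real.exp_le_exp.2 h4) (by linarith)) h2 (by positivity)
    (by positivity))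
  have h8 : C1 * Real.exp (2 * C1 * |T| + 2 * C1 * sg m.natAbs) *
      (4 * G / (κ * (1 - θ) ^ 2) * (X ^ (1 - θ) / Real.log X ^ 2)) =
      D * Real.exp (2 * C1 * sg m.natAbs) * (X ^ (1 - θ) / Real.log X ^ 2) := by
    rw [hD, Real.exp_add]
    ring
  rw [h8] at h7
  have h9 : Real.exp (2 * C1 * sg m.natAbs) ≤ Real.exp ((2 * C1 + 1 + D) * sg m.natAbs) := by
    apply Real.exp_le_exp.2
    apply mul_le_mul_of_nonneg_right _ hsgm
    linarith
  have h10 : 1 ≤ Real.exp ((2 * C1 + 1 + D) * sg m.natAbs) :=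
    Real.one_le_exp (by positivity)
  set Q : ℝ := X ^ (1 - θ) / Real.log X ^ 2 with hQ
  set e : ℝ := Real.exp ((2 * C1 + 1 + D) * sg m.natAbs) with he
  have hQ0 : 0 ≤ Q := by linarith
  calc (RR X a b m : ℝ) ≤ 1 + D * Real.exp (2 * C1 * sg m.natAbs) * Q := by linarith
    _ ≤ e * Q + D * e * Q := by
        have h11 : 1 ≤ e * Q := by nlinarith
        have h12 : D * Real.exp (2 * C1 * sg m.natAbs) * Q ≤ D * e * Q := by
          gcongr
        linarith
    _ ≤ (2 * C1 + 1 + D) * e * Q := by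
        have h13 : 0 ≤ e * Q := by positivity
        nlinarith

end Pool.Agent.Y433.DK
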